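import Mathlib

set_option autoImplicit false

/-!
# The two-sided Shearer inequality for meets (helper49's (A) and (B)), in fibre-sum form
-/

namespace Pool.Agent.H18.Fr

open Finset

/-- The indicator of a proposition. -/
noncomputable def ind (p : Prop) : ℝ := by
  classical
  exact if p then 1 else 0

lemma ind_true {p : Prop} (h : p) : ind p = 1 := by simp [ind, h]

lemma ind_false {p : Prop} (h : ¬ p) : ind p = 0 := by simp [ind, h]

lemma ind_nonneg (p : Prop) : 0 ≤ ind p := by
  by_cases h : p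
  · rw [ind_true h]; norm_num
  · rw [ind_false h]

lemma ind_congr {p q : Prop} (h : p ↔ q) : ind p = ind q := by rw [propext h]

lemma ind_mono {p q : Prop} (h : p → q) : ind p ≤ ind q := by
  by_cases hp : p
  · rw [ind_true hp, ind_true (h hp)]
  · rw [ind_false hp]
    exact ind_nonneg q

lemma ind_and (p q : Prop) : ind (p ∧ q) = ind p * ind q := by
  by_cases hp : p <;> by_cases hq : q <;> simp [ind, hp, hq]

/-- The size of the class of `x`. -/
noncomputable def cnt {Ω : Type*} [Fintype Ω] (r : Ω → Ω → Prop) (x : Ω) : ℝ := ∑ y, ind (r x y)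

/-- The sum of the logarithms of the sizes of the classes of a relation. -/
noncomputable def SS {Ω : Type*} [Fintype Ω] (r : Ω → Ω → Prop) : ℝ := ∑ x, Real.log (cnt r x)

section Basic

variable {Ω : Type*} [Fintype Ω]

lemma cnt_pos {r : Ω → Ω → Prop} {x : Ω} (h : r x x) : 0 < cnt r x := by
  unfold cnt
  have h1 : ind (r x x) ≤ ∑ y, ind (r x y) :=
    Finset.single_le_sum (f := fun y => ind (r x y)) (fun y _ => ind_nonneg _) (mem_univ x)
  rw [ind_true h] at h1
  linarith

lemma cnt_mono {r s : Ω → Ω → Prop} (x : Ω) (h : ∀ y, r x y → s x y) : cnt r x ≤ cnt s x :=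
  sum_le_sum (fun y _ => ind_mono (h y))

lemma cnt_congr {r s : Ω → Ω → Prop} {x x' : Ω} (h : ∀ y, r x y ↔ s x' y) : cnt r x = cnt s x' :=
  sum_congr rfl (fun y _ => ind_congr (h y))

lemma SS_mono {r s : Ω → Ω → Prop} (hr : ∀ x, r x x) (h : ∀ x y, r x y → s x y) : SS r ≤ SS s :=
  sum_le_sum (fun x _ => Real.log_le_log (cnt_pos (hr x)) (cnt_mono x (h x)))

/-- Submodularity. -/
lemma SS_submod {r s t : Ω → Ω → Prop} (hr : Equivalence r) (hs : Equivalence s)
    (ht : Equivalence t) :
    SS (fun x y => r x y ∧ t x y) + SS (fun x y => s x y ∧ t x y) ≤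
      SS (fun x y => r x y ∧ s x y ∧ t x y) + SS t := by
  set a : Ω → ℝ := cnt (fun x y => r x y ∧ t x y) with ha
  set b : Ω → ℝ := cnt (fun x y => s x y ∧ t x y) with hb
  set d : Ω → ℝ := cnt (fun x y => r x y ∧ s x y ∧ t x y) with hd
  set e : Ω → ℝ := cnt t with he
  have ha0 : ∀ x, 0 < a x := fun x => cnt_pos ⟨hr.refl x, ht.refl x⟩
  have hb0 : ∀ x, 0 < b x := fun x => cnt_pos ⟨hs.refl x, ht.refl x⟩
  have hd0 : ∀ x, 0 < d x := fun x => cnt_pos ⟨hr.refl x, hs.refl x, ht.refl x⟩
  have he0 : ∀ x, 0 < e x := fun x => cnt_pos (ht.refl x)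
  have key : ∑ x, a x * b x / (d x * e x) ≤ ∑ x : Ω, (1 : ℝ) := by
    have e1 : ∀ x, a x * b x / (d x * e x) = ∑ y, ∑ z,
        (ind (r x y ∧ t x y) * ind (s x z ∧ t x z)) * (1 / (d x * e x)) := by
      intro x
      have h1 : a x * b x = ∑ y, ∑ z, (ind (r x y ∧ t x y) * ind (s x z ∧ t x z)) := by
        rw [ha, hb]
        unfold cnt
        rw [sum_mul_sum]
      rw [h1, div_eq_mul_one_div, sum_mul]
      refine sum_congr rfl (fun y _ => ?_)
      rw [sum_mul]
    simp only [e1]
    rw [sum_comm]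
    refine sum_le_sum (fun y _ => ?_)
    rw [sum_comm]
    have e2 : ∀ z, ∑ x, (ind (r x y ∧ t x y) * ind (s x z ∧ t x z)) * (1 / (d x * e x)) ≤
        ind (t y z) * (1 / e y) := by
      intro z
      by_cases hne : ∃ x, (r x y ∧ t x y) ∧ (s x z ∧ t x z)
      · obtain ⟨x0, hx0⟩ := hne
        have htyz : t y z := ht.trans (ht.symm hx0.1.2) hx0.2.2
        rw [ind_true htyz, one_mul]
        have hx : ∀ x, ((r x y ∧ t x y) ∧ (s x z ∧ t x z)) ↔ (r x0 x ∧ s x0 x ∧ t x0 x) := by
          intro x
          constructor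
          · rintro ⟨⟨h1, h2⟩, h3, h4⟩
            exact ⟨hr.trans hx0.1.1 (hr.symm h1), hs.trans hx0.2.1 (hs.symm h3),
              ht.trans hx0.1.2 (ht.symm h2)⟩
          · rintro ⟨h1, h2, h3⟩
            exact ⟨⟨hr.trans (hr.symm h1) hx0.1.1, ht.trans (ht.symm h3) hx0.1.2⟩,
              hs.trans (hs.symm h2) hx0.2.1, ht.trans (ht.symm h3) hx0.2.2⟩
        have hdx : ∀ x, (r x0 x ∧ s x0 x ∧ t x0 x) → d x = d x0 ∧ e x = e y := by
          rintro x ⟨h1, h2, h3⟩
          constructor
          · refine cnt_congr (fun w => ?_)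
            constructor
            · rintro ⟨g1, g2, g3⟩
              exact ⟨hr.trans h1 g1, hs.trans h2 g2, ht.trans h3 g3⟩
            · rintro ⟨g1, g2, g3⟩
              exact ⟨hr.trans (hr.symm h1) g1, hs.trans (hs.symm h2) g2, ht.trans (ht.symm h3) g3⟩
          · refine cnt_congr (fun w => ?_)
            have h4 : t y x := ht.trans (ht.symm hx0.1.2) h3
            constructor
            · intro g
              exact ht.trans h4 g
            · intro g
              exact ht.trans (ht.symm h4) g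
        calc ∑ x, (ind (r x y ∧ t x y) * ind (s x z ∧ t x z)) * (1 / (d x * e x))
            = ∑ x, ind (r x0 x ∧ s x0 x ∧ t x0 x) * (1 / (d x0 * e y)) := by
              refine sum_congr rfl (fun x _ => ?_)
              rw [← ind_and]
              by_cases h : r x0 x ∧ s x0 x ∧ t x0 x
              · rw [ind_true ((hx x).2 h), ind_true h, (hdx x h).1, (hdx x h).2]
              · rw [ind_false (fun h' => h ((hx x).1 h')), ind_false h, zero_mul, zero_mul]
          _ = d x0 * (1 / (d x0 * e y)) := by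
              rw [← sum_mul]
              rfl
          _ ≤ 1 / e y := by
              have := hd0 x0
              have := he0 y
              apply le_of_eq
              field_simp
      · have : ∑ x, (ind (r x y ∧ t x y) * ind (s x z ∧ t x z)) * (1 / (d x * e x)) = 0 := by
          refine sum_eq_zero (fun x _ => ?_)
          rw [← ind_and, ind_false (fun h => hne ⟨x, h⟩), zero_mul]
        rw [this]
        exact mul_nonneg (ind_nonneg _) (one_div_pos.2 (he0 y)).le
    calc ∑ z, ∑ x, (ind (r x y ∧ t x y) * ind (s x z ∧ t x z)) * (1 / (d x * e x))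
        ≤ ∑ z, ind (t y z) * (1 / e y) := sum_le_sum (fun z _ => e2 z)
      _ = e y * (1 / e y) := by
          rw [← sum_mul]
          rfl
      _ = 1 := by
          have := he0 y
          field_simp
  have hlog : ∀ x, Real.log (a x) + Real.log (b x) - Real.log (d x) - Real.log (e x) ≤
      a x * b x / (d x * e x) - 1 := by
    intro x
    have h1 := Real.log_le_sub_one_of_pos (div_pos (mul_pos (ha0 x) (hb0 x)) (mul_pos (hd0 x) (he0 x)))
    rw [Real.log_div (mul_pos (ha0 x) (hb0 x)).ne' (mul_pos (hd0 x) (he0 x)).ne',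
      Real.log_mul (ha0 x).ne' (hb0 x).ne', Real.log_mul (hd0 x).ne' (he0 x).ne'] at h1
    linarith
  have hsum := sum_le_sum (fun (x : Ω) (_ : x ∈ univ) => hlog x)
  simp only [sum_sub_distrib, sum_add_distrib] at hsum
  unfold SS
  linarith

end Basic

section Chain

variable {L : Type*} {r : ℕ} {P G : Type*}

/-- The relation: same class and same coordinates in `A`. -/
def RA (T : L → G) (p : Fin r → L → P) (A : Finset (Fin r)) (x y : L) : Prop :=
  T x = T y ∧ ∀ k ∈ A, p k x = p k y

lemma RA_equiv (T : L → G) (p : Fin r → L → P) (A : Finset (Fin r)) :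
    Equivalence (RA T p A) :=
  ⟨fun _ => ⟨rfl, fun _ _ => rfl⟩, fun h => ⟨h.1.symm, fun k hk => (h.2 k hk).symm⟩,
    fun h h' => ⟨h.1.trans h'.1, fun k hk => (h.2 k hk).trans (h'.2 k hk)⟩⟩

/-- The initial segment `{k | k < m}` of the coordinates. -/
def ini (r m : ℕ) : Finset (Fin r) := univ.filter (fun k : Fin r => (k : ℕ) < m)

variable [Fintype L]

/-- The weight of a coordinate. -/
noncomputable def wt (T : L → G) (p : Fin r → L → P) (k : Fin r) : ℝ :=
  SS (RA T p (ini r k)) - SS (RA T p (ini r (k + 1)))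

lemma wt_nonneg (T : L → G) (p : Fin r → L → P) (k : Fin r) : 0 ≤ wt T p k := by
  unfold wt
  have := SS_mono (r := RA T p (ini r (k + 1))) (s := RA T p (ini r k)) (RA_equiv T p _).refl
    (fun x y h => ⟨h.1, fun j hj => h.2 j (by
      simp only [ini, mem_filter, mem_univ, true_and] at hj ⊢
      omega)⟩)
  linarith

lemma sum_wt (T : L → G) (p : Fin r → L → P) :
    ∑ k, wt T p k = SS (RA T p ∅) - SS (RA T p univ) := by
  have h : ∑ k : Fin r, wt T p k = ∑ k ∈ range r, (SS (RA T p (ini r k)) - SS (RA T p (ini r (k + 1)))) := by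
    rw [← Fin.sum_univ_eq_sum_range (fun k => SS (RA T p (ini r k)) - SS (RA T p (ini r (k + 1)))) r]
    rfl
  rw [h, Finset.sum_range_sub']
  congr 2
  · congr 1
    ext k
    simp [ini]
  · congr 1
    ext k
    simp [ini]

/-- The chain rule bound. -/
lemma SS_RA_le (T : L → G) (p : Fin r → L → P) (A : Finset (Fin r)) :
    SS (RA T p A) ≤ SS (RA T p ∅) - ∑ k ∈ A, wt T p k := by
  classical
  have key : ∀ m : ℕ, SS (RA T p (A ∩ ini r m)) ≤ SS (RA T p ∅) - ∑ k ∈ A ∩ ini r m, wt T p k := by
    intro m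
    induction m with
    | zero =>
      have : A ∩ ini r 0 = ∅ := by ext k; simp [ini]
      rw [this]
      simp
    | succ m ih =>
      by_cases hm : ∃ k : Fin r, (k : ℕ) = m ∧ k ∈ A
      · obtain ⟨k, hk, hkA⟩ := hm
        have hins : A ∩ ini r (m + 1) = insert k (A ∩ ini r m) := by
          ext j
          simp only [ini, mem_inter, mem_filter, mem_univ, true_and, mem_insert]
          constructor
          · rintro ⟨h1, h2⟩
            rcases Nat.lt_succ_iff_lt_or_eq.1 h2 with h3 | h3
            · exact Or.inr ⟨h1, h3⟩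
            · exact Or.inl (Fin.ext (by omega))
          · rintro (rfl | ⟨h1, h2⟩)
            · exact ⟨hkA, by omega⟩
            · exact ⟨h1, by omega⟩
        have hnot : k ∉ A ∩ ini r m := by simp [ini, hk]
        have hsub := SS_submod (r := fun x y => p k x = p k y)
          (s := RA T p (ini r m)) (t := RA T p (A ∩ ini r m))
          ⟨fun _ => rfl, fun h => h.symm, fun h h' => h.trans h'⟩ (RA_equiv T p _) (RA_equiv T p _)
        have e1 : SS (fun x y => p k x = p k y ∧ RA T p (A ∩ ini r m) x y) =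
            SS (RA T p (insert k (A ∩ ini r m))) := by
          congr 1
          funext x y
          apply propext
          constructor
          · rintro ⟨h1, h2⟩
            refine ⟨h2.1, fun j hj => ?_⟩
            rcases Finset.mem_insert.1 hj with rfl | hj
            · exact h1
            · exact h2.2 j hj
          · intro h
            exact ⟨h.2 k (mem_insert_self _ _), h.1, fun j hj => h.2 j (mem_insert_of_mem hj)⟩
        have e2 : SS (fun x y => RA T p (ini r m) x y ∧ RA T p (A ∩ ini r m) x y) =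
            SS (RA T p (ini r m)) := by
          congr 1
          funext x y
          apply propext
          exact ⟨fun h => h.1, fun h => ⟨h, h.1, fun j hj => h.2 j (mem_inter.1 hj).2⟩⟩
        have e3 : SS (fun x y => p k x = p k y ∧ RA T p (ini r m) x y ∧
            RA T p (A ∩ ini r m) x y) = SS (RA T p (ini r (m + 1))) := by
          congr 1
          funext x y
          apply propext
          constructor
          · rintro ⟨h1, h2, _⟩
            refine ⟨h2.1, fun j hj => ?_⟩
            simp only [ini, mem_filter, mem_univ, true_and] at hj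
            rcases Nat.lt_succ_iff_lt_or_eq.1 hj with h3 | h3
            · exact h2.2 j (by simpa [ini] using h3)
            · have : j = k := Fin.ext (by omega)
              rw [this]
              exact h1
          · intro h
            refine ⟨h.2 k (by simp [ini, hk]), ⟨h.1, fun j hj => h.2 j ?_⟩,
              h.1, fun j hj => h.2 j ?_⟩
            · simp only [ini, mem_filter, mem_univ, true_and] at hj ⊢
              omega
            · simp only [ini, mem_inter, mem_filter, mem_univ, true_and] at hj ⊢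
              omega
        rw [e1, e2, e3] at hsub
        rw [hins, sum_insert hnot]
        have hw : wt T p k = SS (RA T p (ini r m)) - SS (RA T p (ini r (m + 1))) := by
          unfold wt
          rw [hk]
        rw [hw]
        linarith
      · have hins : A ∩ ini r (m + 1) = A ∩ ini r m := by
          ext j
          simp only [ini, mem_inter, mem_filter, mem_univ, true_and]
          constructor
          · rintro ⟨h1, h2⟩
            refine ⟨h1, ?_⟩
            rcases Nat.lt_succ_iff_lt_or_eq.1 h2 with h3 | h3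
            · exact h3
            · exact absurd ⟨j, h3, h1⟩ hm
          · rintro ⟨h1, h2⟩
            exact ⟨h1, by omega⟩
        rw [hins]
        exact ih
  have := key r
  have hA : A ∩ ini r r = A := by
    ext j
    simp [ini]
  rwa [hA] at this

end Chain

section Pair

variable {L : Type*} [Lattice L] [Fintype L] {r : ℕ} {P G G' : Type*}

/-- **Two-sided Shearer inequality.** -/
theorem two_sided (c : L → G) (T : L → G') (p : Fin r → L → P) (A : L → Finset (Fin r)) (α : ℝ)
    (hcT : ∀ x y, c x = c y → T x = T y)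
    (hT : ∀ x x' y y', T x = T x' → T y = T y' → T (x ⊓ y) = T (x' ⊓ y'))
    (hp : ∀ x y x' y' k, T x = T x' → T y = T y' → c (x ⊓ y) = c (x' ⊓ y') → k ∈ A y →
      p k x = p k x')
    (hdet : ∀ x x', T x = T x' → (∀ k, p k x = p k x') → c x = c x')
    (hα0 : 0 ≤ α) (hα : ∀ k, α * (Fintype.card L : ℝ) ≤ ∑ y : L, (if k ∈ A y then (1 : ℝ) else 0)) :
    SS (fun u v : L × L => c (u.1 ⊓ u.2) = c (v.1 ⊓ v.2)) ≤
      SS (fun u v : L × L => T (u.1 ⊓ u.2) = T (v.1 ⊓ v.2)) -
        2 * α * (Fintype.card L : ℝ) * (SS (fun x y : L => T x = T y) -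
          SS (fun x y : L => c x = c y)) := by
  classical
  set N : ℝ := (Fintype.card L : ℝ) with hN
  -- submodularity
  have hsub := SS_submod (Ω := L × L) (r := fun u v => c (u.1 ⊓ u.2) = c (v.1 ⊓ v.2))
    (s := fun u v => T u.1 = T v.1 ∧ T u.2 = T v.2)
    (t := fun u v => T (u.1 ⊓ u.2) = T (v.1 ⊓ v.2))
    ⟨fun _ => rfl, fun h => h.symm, fun h h' => h.trans h'⟩
    ⟨fun _ => ⟨rfl, rfl⟩, fun h => ⟨h.1.symm, h.2.symm⟩, fun h h' => ⟨h.1.trans h'.1, h.2.trans h'.2⟩⟩
    ⟨fun _ => rfl, fun h => h.symm, fun h h' => h.trans h'⟩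
  have e1 : SS (fun u v : L × L => c (u.1 ⊓ u.2) = c (v.1 ⊓ v.2) ∧
      T (u.1 ⊓ u.2) = T (v.1 ⊓ v.2)) = SS (fun u v : L × L => c (u.1 ⊓ u.2) = c (v.1 ⊓ v.2)) := by
    congr 1
    funext u v
    exact propext ⟨fun h => h.1, fun h => ⟨h, hcT _ _ h⟩⟩
  have e2 : SS (fun u v : L × L => (T u.1 = T v.1 ∧ T u.2 = T v.2) ∧
      T (u.1 ⊓ u.2) = T (v.1 ⊓ v.2)) = SS (fun u v : L × L => T u.1 = T v.1 ∧ T u.2 = T v.2) := by
    congr 1
    funext u v
    exact propext ⟨fun h => h.1, fun h => ⟨h, hT _ _ _ _ h.1 h.2⟩⟩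
  rw [e1, e2] at hsub
  -- the relation `Q`
  set Q : L × L → L × L → Prop := fun u v => RA T p (A u.2) u.1 v.1 ∧ RA T p (A u.1) u.2 v.2 with hQ
  have h1 : SS (fun u v : L × L => c (u.1 ⊓ u.2) = c (v.1 ⊓ v.2) ∧
      (T u.1 = T v.1 ∧ T u.2 = T v.2) ∧ T (u.1 ⊓ u.2) = T (v.1 ⊓ v.2)) ≤ SS Q := by
    refine SS_mono (fun u => ⟨rfl, ⟨rfl, rfl⟩, rfl⟩) (fun u v h => ?_)
    obtain ⟨h1, ⟨h2, h3⟩, _⟩ := h
    refine ⟨⟨h2, fun k hk => hp u.1 u.2 v.1 v.2 k h2 h3 h1 hk⟩,
      ⟨h3, fun k hk => hp u.2 u.1 v.2 v.1 k h3 h2 ?_ hk⟩⟩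
    rw [inf_comm u.2, inf_comm v.2]
    exact h1
  have hprod : ∀ (R1 R2 : L → Prop), (∑ v : L × L, ind (R1 v.1 ∧ R2 v.2)) =
      (∑ x, ind (R1 x)) * (∑ x, ind (R2 x)) := by
    intro R1 R2
    simp only [ind_and]
    rw [Fintype.sum_prod_type, sum_mul_sum]
  have hpos : ∀ (B : Finset (Fin r)) (x : L), cnt (RA T p B) x ≠ 0 := fun B x =>
    (cnt_pos ((RA_equiv T p B).refl x)).ne'
  have h2 : SS Q = 2 * ∑ y, SS (RA T p (A y)) := by
    unfold SS
    have : ∀ u : L × L, Real.log (cnt Q u) =
        Real.log (cnt (RA T p (A u.2)) u.1) + Real.log (cnt (RA T p (A u.1)) u.2) := by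
      intro u
      rw [← Real.log_mul (hpos _ _) (hpos _ _)]
      congr 1
      exact hprod (fun x => RA T p (A u.2) u.1 x) (fun x => RA T p (A u.1) u.2 x)
    simp only [this]
    rw [sum_add_distrib, Fintype.sum_prod_type, Fintype.sum_prod_type]
    simp only
    rw [sum_comm]
    ring
  have h3 : SS (fun u v : L × L => T u.1 = T v.1 ∧ T u.2 = T v.2) =
      2 * (N * SS (RA T p ∅)) := by
    have hRA : ∀ x y, RA T p ∅ x y ↔ T x = T y := fun x y => ⟨fun h => h.1, fun h => ⟨h, by simp⟩⟩
    unfold SS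
    have : ∀ u : L × L, Real.log (cnt (fun u v : L × L => T u.1 = T v.1 ∧ T u.2 = T v.2) u) =
        Real.log (cnt (RA T p ∅) u.1) + Real.log (cnt (RA T p ∅) u.2) := by
      intro u
      rw [← Real.log_mul (hpos _ _) (hpos _ _)]
      congr 1
      refine Eq.trans ?_ (hprod (fun x => RA T p ∅ u.1 x) (fun x => RA T p ∅ u.2 x))
      exact sum_congr rfl (fun v _ => ind_congr (by rw [hRA, hRA]))
    simp only [this]
    rw [sum_add_distrib, Fintype.sum_prod_type, Fintype.sum_prod_type]
    simp only [sum_const, card_univ, nsmul_eq_mul]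
    rw [← mul_sum]
    ring
  have h4 : ∑ y, SS (RA T p (A y)) ≤ N * SS (RA T p ∅) - ∑ y, ∑ k ∈ A y, wt T p k := by
    have := Finset.sum_le_sum (fun (y : L) (_ : y ∈ univ) => SS_RA_le T p (A y))
    rw [sum_sub_distrib, sum_const, card_univ, nsmul_eq_mul] at this
    exact this
  have h5 : α * N * ∑ k, wt T p k ≤ ∑ y, ∑ k ∈ A y, wt T p k := by
    have e : ∑ y, ∑ k ∈ A y, wt T p k = ∑ k, wt T p k * ∑ y : L, (if k ∈ A y then (1 : ℝ) else 0) := by
      have : ∀ y, ∑ k ∈ A y, wt T p k = ∑ k, wt T p k * (if k ∈ A y then (1 : ℝ) else 0) := by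
        intro y
        simp only [mul_ite, mul_one, mul_zero]
        rw [Finset.sum_ite_mem, Finset.univ_inter]
      simp only [this]
      rw [sum_comm]
      simp only [mul_sum]
    rw [e, mul_sum]
    refine sum_le_sum (fun k _ => ?_)
    rw [mul_comm]
    exact mul_le_mul_of_nonneg_left (hα k) (wt_nonneg T p k)
  rw [sum_wt] at h5
  have h6 : SS (RA T p ∅) = SS (fun x y : L => T x = T y) := by
    congr 1
    funext x y
    exact propext ⟨fun h => h.1, fun h => ⟨h, by simp⟩⟩
  have h7 : SS (RA T p univ) ≤ SS (fun x y : L => c x = c y) :=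
    SS_mono (RA_equiv T p _).refl (fun x y h => hdet x y h.1 (fun k => h.2 k (mem_univ k)))
  have hα1 : 0 ≤ α * N * (SS (fun x y : L => c x = c y) - SS (RA T p univ)) :=
    mul_nonneg (mul_nonneg hα0 (Nat.cast_nonneg _)) (by linarith)
  rw [h6] at h5
  rw [h3, h6] at hsub
  rw [h6] at h4
  nlinarith [h1, h2, h4, h5, hsub]

end Pair

end Pool.Agent.H18.Fr
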