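import Mathlib
import Pool.Agent.H18.Fr.Shearer

set_option autoImplicit false

namespace Pool.Agent.H18.Fr

open Finset

section Core

variable {L : Type*} [Lattice L] [Fintype L]

lemma cnt_le {Ω : Type*} [Fintype Ω] (r : Ω → Ω → Prop) (x : Ω) : cnt r x ≤ Fintype.card Ω := by
  unfold cnt
  calc ∑ y, ind (r x y) ≤ ∑ y : Ω, (1 : ℝ) := sum_le_sum (fun y _ => by
        calc ind (r x y) ≤ ind True := ind_mono (fun _ => trivial)
          _ = 1 := ind_true trivial)
    _ = Fintype.card Ω := by simp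

lemma SS_le {Ω : Type*} [Fintype Ω] (r : Ω → Ω → Prop) (hr : ∀ x, r x x) :
    SS r ≤ Fintype.card Ω * Real.log (Fintype.card Ω) := by
  unfold SS
  calc ∑ x, Real.log (cnt r x) ≤ ∑ x : Ω, Real.log (Fintype.card Ω) :=
        sum_le_sum (fun x _ => Real.log_le_log (cnt_pos (hr x)) (cnt_le r x))
    _ = _ := by rw [sum_const, card_univ, nsmul_eq_mul]

/-- The entropy of a function with few values is small. -/
lemma SS_ge {Ω γ : Type*} [Fintype Ω] [Nonempty Ω] [DecidableEq γ] (T : Ω → γ) (K : ℕ)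
    (hK : (univ.image T).card ≤ K) :
    (Fintype.card Ω : ℝ) * (Real.log (Fintype.card Ω) - Real.log K) ≤
      SS (fun x y => T x = T y) := by
  classical
  have hN : (0 : ℝ) < Fintype.card Ω := by exact_mod_cast Fintype.card_pos
  have hKpos : (0 : ℝ) < K := by
    have : 0 < (univ.image T).card := card_pos.2 (univ_nonempty.image _)
    exact_mod_cast (lt_of_lt_of_le this hK)
  set q : ℝ := (Fintype.card Ω : ℝ) / K with hq
  have hqpos : 0 < q := div_pos hN hKpos
  have hc : ∀ x, 0 < cnt (fun x y => T x = T y) x := fun x => cnt_pos rfl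
  have h1 : ∀ x, Real.log q + 1 - q * (1 / cnt (fun x y => T x = T y) x) ≤
      Real.log (cnt (fun x y => T x = T y) x) := by
    intro x
    have h2 := Real.log_le_sub_one_of_pos (div_pos hqpos (hc x))
    rw [Real.log_div hqpos.ne' (hc x).ne'] at h2
    have h3 : q * (1 / cnt (fun x y => T x = T y) x) = q / cnt (fun x y => T x = T y) x := by ring
    rw [h3]
    linarith
  have h2 : ∑ x, (1 / cnt (fun x y => T x = T y) x) ≤ K := by
    have hcc : ∀ x, cnt (fun x y => T x = T y) x = ((univ.filter (fun y => T y = T x)).card : ℝ) := by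
      intro x
      unfold cnt
      rw [card_filter]
      push_cast
      refine sum_congr rfl (fun y _ => ?_)
      by_cases h : T x = T y
      · rw [ind_true h, if_pos h.symm]
      · rw [ind_false h, if_neg (fun h' => h h'.symm)]
    have h3 : ∑ x, (1 / cnt (fun x y => T x = T y) x) =
        ∑ s ∈ univ.image T, ∑ x ∈ univ.filter (fun x => T x = s), (1 / cnt (fun x y => T x = T y) x) :=
      (sum_fiberwise_of_maps_to (fun x _ => mem_image_of_mem T (mem_univ x)) _).symm
    rw [h3]
    calc ∑ s ∈ univ.image T, ∑ x ∈ univ.filter (fun x => T x = s), (1 / cnt (fun x y => T x = T y) x)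
        ≤ ∑ s ∈ univ.image T, (1 : ℝ) := by
          refine sum_le_sum (fun s hs => ?_)
          have h4 : ∑ x ∈ univ.filter (fun x => T x = s), (1 / cnt (fun x y => T x = T y) x) =
              ∑ x ∈ univ.filter (fun x => T x = s), (1 / ((univ.filter (fun x => T x = s)).card : ℝ)) := by
            refine sum_congr rfl (fun x hx => ?_)
            rw [hcc, (mem_filter.1 hx).2]
          rw [h4, sum_const, nsmul_eq_mul]
          obtain ⟨x, _, hx⟩ := mem_image.1 hs
          have h5 : (0 : ℝ) < ((univ.filter (fun x => T x = s)).card : ℝ) := by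
            have : 0 < (univ.filter (fun x => T x = s)).card := card_pos.2 ⟨x, by simpa using hx⟩
            exact_mod_cast this
          rw [mul_one_div_cancel h5.ne']
      _ = ((univ.image T).card : ℝ) := by simp
      _ ≤ K := by exact_mod_cast hK
  have h5 := sum_le_sum (fun (x : Ω) (_ : x ∈ univ) => h1 x)
  rw [sum_sub_distrib, ← mul_sum, sum_const, card_univ, nsmul_eq_mul] at h5
  have h6 : Real.log q = Real.log (Fintype.card Ω) - Real.log K := by
    rw [hq, Real.log_div hN.ne' hKpos.ne']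
  have h7 : q * ∑ x, (1 / cnt (fun x y => T x = T y) x) ≤ (Fintype.card Ω : ℝ) := by
    have := mul_le_mul_of_nonneg_left h2 hqpos.le
    have h8 : q * K = (Fintype.card Ω : ℝ) := by
      rw [hq]
      field_simp
    linarith
  rw [h6] at h5
  unfold SS
  linarith

/-- The Kullback–Leibler step. -/
lemma SS_meet_ge [Nonempty L] (E : Finset L) (hE : 0 < E.card) (ρ : ℝ)
    (hp : ρ ≤ ∑ u : L × L, ind (u.1 ⊓ u.2 ∈ E)) :
    (Fintype.card L : ℝ) ^ 2 * (Real.log (Fintype.card L) - Real.log 2) +
      ρ * Real.log ((Fintype.card L : ℝ) / E.card) ≤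
      SS (fun u v : L × L => u.1 ⊓ u.2 = v.1 ⊓ v.2) := by
  classical
  set N : ℝ := (Fintype.card L : ℝ) with hNdef
  have hN : 0 < N := by rw [hNdef]; exact_mod_cast Fintype.card_pos
  have hEpos : (0 : ℝ) < E.card := by exact_mod_cast hE
  have hEN : (E.card : ℝ) ≤ N := by rw [hNdef]; exact_mod_cast card_le_univ E
  set w : L → ℝ := fun z => 1 / (2 * N) + ind (z ∈ E) / (2 * E.card) with hw
  have hwpos : ∀ z, 0 < w z := fun z => by
    have := ind_nonneg (z ∈ E)
    simp only [hw]
    positivity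
  have hwsum : ∑ z, w z ≤ 1 := by
    simp only [hw, sum_add_distrib, sum_const, card_univ, nsmul_eq_mul, ← sum_div]
    have : ∑ z : L, ind (z ∈ E) = E.card := by
      have h1 : ∑ z : L, ind (z ∈ E) = ∑ z : L, (if z ∈ E then (1 : ℝ) else 0) :=
        sum_congr rfl (fun z _ => by
          by_cases h : z ∈ E
          · rw [ind_true h, if_pos h]
          · rw [ind_false h, if_neg h])
      rw [h1, sum_ite_mem, univ_inter]
      simp
    rw [this, ← hNdef]
    apply le_of_eq
    field_simp
    norm_num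
  set n : L → ℝ := fun z => ∑ v : L × L, ind (z = v.1 ⊓ v.2) with hn
  have hcn : ∀ u : L × L, cnt (fun u v : L × L => u.1 ⊓ u.2 = v.1 ⊓ v.2) u = n (u.1 ⊓ u.2) :=
    fun u => rfl
  have hcpos : ∀ u : L × L, 0 < n (u.1 ⊓ u.2) := fun u => by
    rw [← hcn]
    exact cnt_pos rfl
  have h1 : ∀ u : L × L, Real.log (N ^ 2 * w (u.1 ⊓ u.2)) + 1 -
      N ^ 2 * (w (u.1 ⊓ u.2) / n (u.1 ⊓ u.2)) ≤ Real.log (n (u.1 ⊓ u.2)) := by
    intro u
    have hpos : 0 < N ^ 2 * w (u.1 ⊓ u.2) := mul_pos (by positivity) (hwpos _)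
    have h2 := Real.log_le_sub_one_of_pos (div_pos hpos (hcpos u))
    rw [Real.log_div hpos.ne' (hcpos u).ne'] at h2
    have h3 : N ^ 2 * (w (u.1 ⊓ u.2) / n (u.1 ⊓ u.2)) = N ^ 2 * w (u.1 ⊓ u.2) / n (u.1 ⊓ u.2) := by
      ring
    rw [h3]
    linarith
  have h2 : ∑ u : L × L, w (u.1 ⊓ u.2) / n (u.1 ⊓ u.2) ≤ 1 := by
    have e1 : ∀ u : L × L, w (u.1 ⊓ u.2) / n (u.1 ⊓ u.2) =
        ∑ z, ind (z = u.1 ⊓ u.2) * (w z / n z) := by
      intro u
      rw [Finset.sum_eq_single (u.1 ⊓ u.2)]
      · rw [ind_true rfl, one_mul]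
      · intro z _ hz
        rw [ind_false hz, zero_mul]
      · intro h
        exact absurd (mem_univ _) h
    simp only [e1]
    rw [sum_comm]
    refine le_trans (sum_le_sum (fun z _ => ?_)) hwsum
    rw [← sum_mul]
    change n z * (w z / n z) ≤ w z
    rcases eq_or_ne (n z) 0 with h | h
    · rw [h, zero_mul]
      exact (hwpos z).le
    · apply le_of_eq
      field_simp
  have h3 : ∀ u : L × L, (Real.log N - Real.log 2) +
      ind (u.1 ⊓ u.2 ∈ E) * Real.log (N / E.card) ≤ Real.log (N ^ 2 * w (u.1 ⊓ u.2)) := by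
    intro u
    by_cases h : u.1 ⊓ u.2 ∈ E
    · rw [ind_true h, one_mul, ← Real.log_div hN.ne' (by norm_num), ← Real.log_mul (by positivity) (by positivity)]
      apply Real.log_le_log (by positivity)
      simp only [hw]
      rw [ind_true h]
      have : N / 2 * (N / E.card) = N ^ 2 * (1 / (2 * E.card)) := by
        field_simp
      rw [this]
      apply mul_le_mul_of_nonneg_left _ (by positivity)
      have : 0 < 1 / (2 * N) := by positivity
      linarith
    · rw [ind_false h, zero_mul, add_zero, ← Real.log_div hN.ne' (by norm_num)]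
      apply Real.log_le_log (by positivity)
      simp only [hw]
      rw [ind_false h]
      apply le_of_eq
      field_simp
      norm_num
  have h4 := sum_le_sum (fun (u : L × L) (_ : u ∈ univ) => h1 u)
  have h5 := sum_le_sum (fun (u : L × L) (_ : u ∈ univ) => h3 u)
  rw [sum_sub_distrib, sum_add_distrib, ← mul_sum, sum_const, card_univ, nsmul_eq_mul,
    Fintype.card_prod] at h4
  rw [sum_add_distrib, sum_const, card_univ, nsmul_eq_mul, ← sum_mul, Fintype.card_prod] at h5
  push_cast at h4 h5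
  rw [← hNdef] at h4 h5
  have h6 : 0 ≤ Real.log (N / E.card) := Real.log_nonneg (by rw [le_div_iff₀ hEpos]; linarith)
  have h7 := mul_le_mul_of_nonneg_right hp h6
  have h8 := mul_le_mul_of_nonneg_left h2 (by positivity : (0 : ℝ) ≤ N ^ 2)
  have h9 : SS (fun u v : L × L => u.1 ⊓ u.2 = v.1 ⊓ v.2) = ∑ u : L × L, Real.log (n (u.1 ⊓ u.2)) := rfl
  rw [h9]
  nlinarith [h4, h5, h7, h8]

end Core

end Pool.Agent.H18.Fr
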