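import Mathlib
import Pool.Agent.H18.Fr.VCCore
import Pool.Agent.H34.VC.TwoLev
import Pool.Agent.H31.LB.ESet
import Pool.Agent.H75.VC.Numbers

set_option autoImplicit false

namespace Pool.Agent.H18.Fr

open Finset

lemma le_of_forall_supIrred' {L : Type*} [Lattice L] [Finite L] {z w : L}
    (h : ∀ c : L, SupIrred c → c ≤ z → c ≤ w) : z ≤ w := by
  by_contra hzw
  obtain ⟨c, hc⟩ := (Set.toFinite {c : L | c ≤ z ∧ ¬ c ≤ w}).exists_minimal ⟨z, le_rfl, hzw⟩
  have hbelow : ∀ e : L, e < c → e ≤ w := by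
    intro e he
    by_contra hew
    exact absurd (hc.le_of_le ⟨he.le.trans hc.prop.1, hew⟩ he.le) (not_le_of_gt he)
  refine hc.prop.2 (h c ⟨fun hmin => hc.prop.2 ((hmin inf_le_left).trans inf_le_right), ?_⟩
    hc.prop.1)
  intro b e hbe
  by_contra hne
  have hb : b < c := lt_of_le_of_ne (hbe ▸ le_sup_left) (fun h' => hne (Or.inl h'))
  have he : e < c := lt_of_le_of_ne (hbe ▸ le_sup_right) (fun h' => hne (Or.inr h'))
  exact hc.prop.2 (hbe ▸ sup_le (hbelow b hb) (hbelow e he))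

open Classical in
/-- The core inequality. -/
theorem vc_core {L : Type*} [Lattice L] [Fintype L] [Nonempty L] {r : ℕ} (j g g1 : Fin r → L)
    (hjg : ∀ m, j m ≤ g m) (hgg1 : ∀ m, g m ≤ g1 m)
    (hinj : ∀ x y : L, (∀ m, x ⊓ j m = y ⊓ j m) → x = y)
    (e e1 : ℝ) (he : 0 ≤ e) (he1 : 0 ≤ e1) (hee : e + e1 ≤ 1 / 2)
    (hu : ∀ m, (1 / 2 - e) * (Fintype.card L : ℝ) ≤ ((univ.filter fun y => g m ≤ y).card : ℝ))
    (hu1 : ∀ m, (1 / 2 - e - e1) * (Fintype.card L : ℝ) ≤
      ((univ.filter fun y => g1 m ≤ y).card : ℝ))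
    (cls cls1 : L → Finset L)
    (hcls : ∀ x x', cls x = cls x' ↔ ∀ m, (g m ≤ x ↔ g m ≤ x'))
    (hcls1 : ∀ x x', cls1 x = cls1 x' ↔ ∀ m, (g1 m ≤ x ↔ g1 m ≤ x'))
    (hdep : ∀ x x', cls x = cls x' → cls1 x = cls1 x')
    (K K1 : ℕ) (hK : (univ.image cls).card ≤ K) (hK1 : (univ.image cls1).card ≤ K1)
    (hK0 : 1 ≤ K) (hK10 : 1 ≤ K1)
    (E : Finset L) (hE : (Fintype.card L : ℝ) ^ 2 / 4 ≤
      ((univ.filter fun p : L × L => p.1 ⊓ p.2 ∈ E).card : ℝ)) :
    1 / 4 * Real.log ((Fintype.card L : ℝ) / E.card) ≤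
      Real.log 2 + 2 * e * Real.log (Fintype.card L) + 2 * e1 * Real.log K + Real.log K1 := by
  set N : ℝ := (Fintype.card L : ℝ) with hNdef
  have hN : 0 < N := by rw [hNdef]; exact_mod_cast Fintype.card_pos
  set Λ : ℝ := Real.log N with hΛ
  have hlogK : 0 ≤ Real.log K := Real.log_nonneg (by exact_mod_cast hK0)
  have hlogK1 : 0 ≤ Real.log K1 := Real.log_nonneg (by exact_mod_cast hK10)
  have hsumA : ∀ (G : Fin r → L) m, ∑ y : L, (if m ∈ univ.filter (fun m => G m ≤ y) then (1 : ℝ) else 0) =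
      ((univ.filter fun y => G m ≤ y).card : ℝ) := by
    intro G m
    rw [card_filter]
    push_cast
    exact sum_congr rfl (fun y _ => by simp)
  -- (A)
  have hA := two_sided (L := L) (r := r) (fun x => x) cls (fun m x => x ⊓ j m)
    (fun y => univ.filter (fun m => g m ≤ y)) (1 / 2 - e)
    (fun x y h => by rw [h])
    (fun x x' y y' h h' => by
      rw [hcls] at h h' ⊢
      intro m
      rw [le_inf_iff, le_inf_iff, h m, h' m])
    (fun x y x' y' m hx hy hxy hm => by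
      have hm1 : g m ≤ y := by simpa using hm
      have hm2 : g m ≤ y' := ((hcls y y').1 hy m).1 hm1
      have e1 : x ⊓ j m = x ⊓ y ⊓ j m := by
        rw [inf_assoc, inf_eq_right.2 ((hjg m).trans hm1)]
      have e2 : x' ⊓ j m = x' ⊓ y' ⊓ j m := by
        rw [inf_assoc, inf_eq_right.2 ((hjg m).trans hm2)]
      have hxy' : x ⊓ y = x' ⊓ y' := hxy
      rw [e1, e2, hxy'])
    (fun x x' _ h => hinj x x' h) (by linarith)
    (fun m => by rw [hsumA]; exact hu m)
  -- (B)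
  have hB := two_sided (L := L) (r := r) (P := Prop) cls cls1 (fun m x => g m ≤ x)
    (fun y => univ.filter (fun m => g1 m ≤ y)) (1 / 2 - e - e1)
    hdep
    (fun x x' y y' h h' => by
      rw [hcls1] at h h' ⊢
      intro m
      rw [le_inf_iff, le_inf_iff, h m, h' m])
    (fun x y x' y' m hx hy hxy hm => by
      have hm1 : g1 m ≤ y := by simpa using hm
      have hm2 : g1 m ≤ y' := ((hcls1 y y').1 hy m).1 hm1
      have h3 := (hcls _ _).1 hxy m
      rw [le_inf_iff, le_inf_iff] at h3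
      exact propext ⟨fun h => (h3.1 ⟨h, (hgg1 m).trans hm1⟩).1,
        fun h => (h3.2 ⟨h, (hgg1 m).trans hm2⟩).1⟩)
    (fun x x' _ h => (hcls x x').2 (fun m => iff_of_eq (h m))) (by linarith)
    (fun m => by rw [hsumA]; exact hu1 m)
  have h0 : SS (fun x y : L => x = y) = 0 := by
    unfold SS
    refine sum_eq_zero (fun x _ => ?_)
    have : cnt (fun x y : L => x = y) x = 1 := by
      unfold cnt
      rw [Finset.sum_eq_single x]
      · exact ind_true rfl
      · intro y _ hy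
        exact ind_false (fun h => hy h.symm)
      · intro h
        exact absurd (mem_univ _) h
    rw [this, Real.log_one]
  have h1 : SS (fun u v : L × L => cls1 (u.1 ⊓ u.2) = cls1 (v.1 ⊓ v.2)) ≤ N ^ 2 * (2 * Λ) := by
    have := SS_le (Ω := L × L) (fun u v => cls1 (u.1 ⊓ u.2) = cls1 (v.1 ⊓ v.2)) (fun _ => rfl)
    rw [Fintype.card_prod] at this
    push_cast at this
    rw [← hNdef, Real.log_mul hN.ne' hN.ne'] at this
    nlinarith [this]
  have h2 : N * (Λ - Real.log K) ≤ SS (fun x y => cls x = cls y) := SS_ge cls K hK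
  have h3 : N * (Λ - Real.log K1) ≤ SS (fun x y => cls1 x = cls1 y) := SS_ge cls1 K1 hK1
  have hcount : (∑ u : L × L, ind (u.1 ⊓ u.2 ∈ E)) =
      ((univ.filter fun p : L × L => p.1 ⊓ p.2 ∈ E).card : ℝ) := by
    rw [card_filter]
    push_cast
    refine sum_congr rfl (fun u _ => ?_)
    by_cases h : u.1 ⊓ u.2 ∈ E
    · rw [ind_true h, if_pos h]
    · rw [ind_false h, if_neg h]
  have hEcard : 0 < E.card := by
    rcases Finset.eq_empty_or_nonempty E with h | h
    · rw [h] at hE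
      have h4 : ((univ.filter fun p : L × L => p.1 ⊓ p.2 ∈ (∅ : Finset L)).card : ℝ) = 0 := by simp
      rw [h4] at hE
      have : 0 < N ^ 2 := by positivity
      linarith
    · exact h.card_pos
  have h4 := SS_meet_ge E hEcard (N ^ 2 / 4) (by rw [hcount]; exact hE)
  rw [← hNdef, ← hΛ] at h4
  rw [h0, ← hNdef] at hA
  rw [← hNdef] at hB
  set SX := SS (fun u v : L × L => u.1 ⊓ u.2 = v.1 ⊓ v.2)
  set ST := SS (fun x y => cls x = cls y)
  set ST1 := SS (fun x y => cls1 x = cls1 y)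
  set P := SS (fun u v : L × L => cls (u.1 ⊓ u.2) = cls (v.1 ⊓ v.2))
  set P1 := SS (fun u v : L × L => cls1 (u.1 ⊓ u.2) = cls1 (v.1 ⊓ v.2))
  have h5 : SX ≤ N ^ 2 * (2 * Λ) - 2 * (1 / 2 - e - e1) * N * ST1 - 2 * e1 * N * ST := by
    have : SX ≤ P - 2 * (1 / 2 - e) * N * (ST - 0) := hA
    nlinarith [this, hB, h1]
  have h6 : 2 * (1 / 2 - e - e1) * N * (N * (Λ - Real.log K1)) ≤ 2 * (1 / 2 - e - e1) * N * ST1 :=
    mul_le_mul_of_nonneg_left h3 (mul_nonneg (by linarith) hN.le)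
  have h7 : 2 * e1 * N * (N * (Λ - Real.log K)) ≤ 2 * e1 * N * ST :=
    mul_le_mul_of_nonneg_left h2 (mul_nonneg (by linarith) hN.le)
  have h8 : SX ≤ N ^ 2 * (Λ + 2 * e * Λ + (1 - 2 * e - 2 * e1) * Real.log K1 + 2 * e1 * Real.log K) := by
    nlinarith [h5, h6, h7]
  have h9 : N ^ 2 * (Λ - Real.log 2 + 1 / 4 * Real.log (N / E.card)) ≤
      N ^ 2 * (Λ + 2 * e * Λ + (1 - 2 * e - 2 * e1) * Real.log K1 + 2 * e1 * Real.log K) := by
    have : N ^ 2 * (Λ - Real.log 2 + 1 / 4 * Real.log (N / E.card)) =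
        N ^ 2 * (Λ - Real.log 2) + N ^ 2 / 4 * Real.log (N / E.card) := by ring
    rw [this]
    exact h4.trans h8
  have h10 := le_of_mul_le_mul_left h9 (by positivity)
  have h11 : 0 ≤ (2 * e + 2 * e1) * Real.log K1 := by positivity
  nlinarith [h10, h11]

end Pool.Agent.H18.Fr
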