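import Mathlib
import Pool.Agent.H18.Fr.VCMain

set_option autoImplicit false

namespace Pool.Agent.H18.Fr

open Finset

universe u

open Classical in
/-- The exact theorem for bounded breadth, with a bound on `log |L|`. -/
theorem vc_exact_of_large (b : ℕ) : ∃ Λ0 : ℝ, 3 ≤ Λ0 ∧ ∀ (L : Type u) [Lattice L] [BoundedOrder L]
    [Fintype L] (M : Finset L), (∀ a : L, SupIrred a → ∃ m ∈ M, a ≤ m) →
    (∀ A ⊆ M, ∃ B ⊆ A, B.card ≤ b ∧ B.sup id = A.sup id) →
    Λ0 ≤ Real.log (Fintype.card L) →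
    ∃ a ∈ M, 2 * (univ.filter fun y : L => a ≤ y).card < Fintype.card L := by
  obtain ⟨Λ0, hΛ0, hnum⟩ := Pool.Agent.H75.VC.numbers b
  refine ⟨Λ0, hΛ0, fun L _ _ _ M hM hb hL => ?_⟩
  by_contra hcon
  push Not at hcon
  have : Nonempty L := ⟨⊥⟩
  set N : ℝ := (Fintype.card L : ℝ) with hNdef
  have hN : 0 < N := by rw [hNdef]; exact_mod_cast Fintype.card_pos
  set Λ : ℝ := Real.log N with hΛ
  have hΛ3 : 3 ≤ Λ := hΛ0.trans hL
  have hΛpos : 0 < Λ := by linarith
  set t : ℕ := ⌈2 * Λ ^ 2⌉₊ + 1 with ht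
  set K : ℕ := ((t + 1) ^ b + 1) ^ b with hK
  set e : ℝ := 1 / Λ with he
  set e1 : ℝ := 1 / (96 * ((b : ℝ) ^ 2 + 1)) with he1
  set t1 : ℕ := ⌈2 * Real.log K / e1⌉₊ + 1 with ht1
  set K1 : ℕ := ((t1 + 1) ^ b + 1) ^ b with hK1
  set η : ℝ := e + Real.log K / (2 * Λ) with hη
  have hKc : (K : ℝ) = (((t : ℝ) + 1) ^ b + 1) ^ b := by rw [hK]; push_cast; rfl
  have hK1c : (K1 : ℝ) = (((t1 : ℝ) + 1) ^ b + 1) ^ b := by rw [hK1]; push_cast; rfl
  obtain ⟨hη1, hfin⟩ := hnum Λ hL t t1 K K1 e e1 η ht hKc he he1 ht1 hK1c hη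
  have hepos : 0 < e := by positivity
  have he1pos : 0 < e1 := by positivity
  have hK0 : 1 ≤ K := Nat.one_le_pow _ _ (by positivity)
  have hK10 : 1 ≤ K1 := Nat.one_le_pow _ _ (by positivity)
  have hlogK : 0 ≤ Real.log K := Real.log_nonneg (by exact_mod_cast hK0)
  have hlogK1 : 0 ≤ Real.log K1 := Real.log_nonneg (by exact_mod_cast hK10)
  have hηpos : 0 < η := by positivity
  have hee : e + e1 ≤ 1 / 2 := by
    have h1 : e ≤ 1 / 3 := one_div_le_one_div_of_le (by norm_num) hΛ3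
    have h2 : e1 ≤ 1 / 96 := by
      rw [he1]
      apply one_div_le_one_div_of_le (by norm_num)
      nlinarith [sq_nonneg (b : ℝ)]
    linarith
  have hht : 2 * Real.log (Fintype.card L) < e * t := by
    have h1 : 2 * Λ ^ 2 ≤ (⌈2 * Λ ^ 2⌉₊ : ℝ) := Nat.le_ceil _
    have h2 : 2 * Λ ^ 2 < (t : ℝ) := by
      rw [ht]
      push_cast
      linarith
    have h3 : e * (2 * Λ ^ 2) < e * t := mul_lt_mul_of_pos_left h2 hepos
    have h4 : e * (2 * Λ ^ 2) = 2 * Λ := by
      rw [he]
      field_simp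
    linarith
  have hht1 : 2 * Real.log K < e1 * t1 := by
    have h1 : 2 * Real.log K / e1 ≤ (⌈2 * Real.log K / e1⌉₊ : ℝ) := Nat.le_ceil _
    have h2 : 2 * Real.log K / e1 < (t1 : ℝ) := by
      rw [ht1]
      push_cast
      linarith
    have h3 := (div_lt_iff₀ he1pos).1 h2
    linarith
  obtain ⟨g, g1, hmg, hgg1, hg, hg1, hcK, hcK1, hdep⟩ :=
    Pool.Agent.H34.VC.TwoLev.two_levels b M hb e e1 t t1 K K1 hK hK1 hht hht1
  -- enumerate `M`
  set j : Fin M.card → L := fun m => (M.equivFin.symm m : L) with hj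
  have hjM : ∀ m, j m ∈ M := fun m => (M.equivFin.symm m).2
  have hjs : ∀ a ∈ M, ∃ m, j m = a := fun a ha => ⟨M.equivFin ⟨a, ha⟩, by simp [hj]⟩
  have hinj : ∀ x y : L, (∀ m, x ⊓ j m = y ⊓ j m) → x = y := by
    have hle : ∀ x y : L, (∀ m, x ⊓ j m = y ⊓ j m) → x ≤ y := by
      intro x y h
      refine le_of_forall_supIrred' (fun c hc hcx => ?_)
      obtain ⟨a, ha, hca⟩ := hM c hc
      obtain ⟨m, rfl⟩ := hjs a ha
      have h1 : c ≤ x ⊓ j m := le_inf hcx hca
      rw [h m] at h1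
      exact h1.trans inf_le_left
    exact fun x y h => le_antisymm (hle x y h) (hle y x (fun m => (h m).symm))
  have hclsiff : ∀ (G : L → L) (x x' : L), (M.filter (fun m => G m ≤ x) =
      M.filter (fun m => G m ≤ x')) ↔ ∀ m, (G (j m) ≤ x ↔ G (j m) ≤ x') := by
    intro G x x'
    rw [Finset.ext_iff]
    constructor
    · intro h m
      have := h (j m)
      simp only [mem_filter, hjM m, true_and] at this
      exact this
    · intro h a
      simp only [mem_filter]
      constructor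
      · rintro ⟨ha, h1⟩
        obtain ⟨m, rfl⟩ := hjs a ha
        exact ⟨ha, (h m).1 h1⟩
      · rintro ⟨ha, h1⟩
        obtain ⟨m, rfl⟩ := hjs a ha
        exact ⟨ha, (h m).2 h1⟩
  have hu : ∀ m, (1 / 2 - e) * (Fintype.card L : ℝ) ≤
      ((univ.filter fun y => g (j m) ≤ y).card : ℝ) := by
    intro m
    have h1 := hg (j m) (hjM m)
    have h2 : (Fintype.card L : ℝ) ≤ 2 * ((univ.filter fun y : L => j m ≤ y).card : ℝ) := by
      exact_mod_cast hcon (j m) (hjM m)
    linarith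
  have hu1 : ∀ m, (1 / 2 - e - e1) * (Fintype.card L : ℝ) ≤
      ((univ.filter fun y => g1 (j m) ≤ y).card : ℝ) := by
    intro m
    have h1 := hg1 (j m) (hjM m)
    have h2 := hu m
    linarith
  have hN2 : 2 ≤ Fintype.card L := by
    by_contra h
    have h1 : (Fintype.card L : ℝ) ≤ 1 := by
      have : Fintype.card L ≤ 1 := by omega
      exact_mod_cast this
    have h2 : Λ ≤ 0 := Real.log_nonpos hN.le h1
    linarith
  have hdec : ∀ (d1 d2 : DecidableEq (Finset L)) (f : L → Finset L),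
      (@Finset.image L (Finset L) d1 f univ).card = (@Finset.image L (Finset L) d2 f univ).card := by
    intro d1 d2 f
    rw [Subsingleton.elim d1 d2]
  obtain ⟨E, hE1, hE2⟩ := Pool.Agent.H31.LB.eset j (fun m => g (j m)) (fun m => hmg _ (hjM m)) hinj
    (fun x => M.filter (fun m => g m ≤ x)) (fun x x' h => (hclsiff g x x').1 h) K
    (le_trans (le_of_eq (congrArg (Nat.cast (R := ℝ)) (hdec _ _ (fun x => M.filter (fun m => g m ≤ x)))))
      (Nat.cast_le.2 hcK)) e hepos.le hN2 hu hη1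
  have hcore := vc_core j (fun m => g (j m)) (fun m => g1 (j m)) (fun m => hmg _ (hjM m))
    (fun m => hgg1 _ (hjM m)) hinj e e1 hepos.le he1pos.le hee hu hu1
    (fun x => M.filter (fun m => g m ≤ x)) (fun x => M.filter (fun m => g1 m ≤ x))
    (hclsiff g) (hclsiff g1)
    (fun x x' h => (hclsiff g1 x x').2 (fun m => hdep x x' (fun m' hm' => by
      obtain ⟨k, rfl⟩ := hjs m' hm'
      exact (hclsiff g x x').1 h k) (j m) (hjM m)))
    K K1 hcK hcK1 hK0 hK10 E hE2
  -- compare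
  have hEpos : (0 : ℝ) < E.card := by
    rcases Nat.eq_zero_or_pos E.card with h | h
    · rw [Finset.card_eq_zero] at h
      subst h
      have h4 : ((univ.filter fun p : L × L => p.1 ⊓ p.2 ∈ (∅ : Finset L)).card : ℝ) = 0 := by simp
      rw [h4] at hE2
      have : 0 < N ^ 2 := by positivity
      linarith
    · exact_mod_cast h
  have hlog : Real.log (1 / (48 * η)) ≤ Real.log (N / E.card) := by
    apply Real.log_le_log (by positivity)
    rw [div_le_div_iff₀ (by positivity) hEpos]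
    have : (E.card : ℝ) ≤ 16 * η * N := hE1
    nlinarith
  have h1 : 2 * e1 * Real.log K ≤ (2 * e + 2 * e1) * Real.log K :=
    mul_le_mul_of_nonneg_right (by linarith) hlogK
  have h2 : (1 / 4 : ℝ) * Real.log (N / E.card) ≤
      Real.log 2 + 2 * e * Λ + 2 * e1 * Real.log K + Real.log K1 := hcore
  linarith

/-- **Theorem** (helper49).  For every `b` all but finitely many finite lattices in which every join
of maximal join-irreducibles is the join of at most `b` of them have a maximal join-irreducible below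
fewer than half of the elements. -/
theorem vc_exact (b : ℕ) : ∃ C : ℕ, ∀ (L : Type u) [Lattice L] [Finite L],
    (∀ S : Finset L, (∀ a ∈ S, Maximal SupIrred a) → ∃ T ⊆ S, T.card ≤ b ∧
      ∀ z : L, (∀ x ∈ T, x ≤ z) → ∀ x ∈ S, x ≤ z) →
    C < Nat.card L →
    ∃ a : L, Maximal SupIrred a ∧ 2 * Nat.card {x : L // a ≤ x} < Nat.card L := by
  classical
  obtain ⟨Λ0, hΛ0, H⟩ := vc_exact_of_large.{u} b
  refine ⟨⌈Real.exp Λ0⌉₊, fun L _ _ hS hL => ?_⟩
  have := Fintype.ofFinite L
  have hne : Nonempty L := (Nat.card_pos_iff.1 (by omega)).1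
  let _ : BoundedOrder L := Fintype.toBoundedOrder L
  rw [Nat.card_eq_fintype_card] at hL ⊢
  obtain ⟨a, ha, hlt⟩ := H L (univ.filter (fun a : L => Maximal SupIrred a))
    (fun a ha => by
      obtain ⟨m, ham, hm⟩ := (Set.toFinite {a : L | SupIrred a}).exists_le_maximal
        (show a ∈ {a : L | SupIrred a} from ha)
      exact ⟨m, by simpa using hm, ham⟩)
    (fun A hA => by
      obtain ⟨T, hTA, hTb, hT⟩ := hS A (fun a ha => by simpa using hA ha)
      refine ⟨T, hTA, hTb, le_antisymm (Finset.sup_mono hTA) (Finset.sup_le (fun x hx => ?_))⟩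
      exact hT (T.sup id) (fun y hy => Finset.le_sup (f := id) hy) x hx)
    (by
      have h1 : Real.exp Λ0 < (Fintype.card L : ℝ) :=
        lt_of_le_of_lt (Nat.le_ceil _) (by exact_mod_cast hL)
      have h2 := Real.log_lt_log (Real.exp_pos _) h1
      rw [Real.log_exp] at h2
      exact h2.le)
  refine ⟨a, by simpa using ha, ?_⟩
  rw [Nat.card_eq_fintype_card, Fintype.card_subtype]
  exact hlt

end Pool.Agent.H18.Fr
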